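import Pool.Agent.H.MP_5af839_lc.A

set_option autoImplicit false

namespace Pool.Agent.H.MP_3d6d95_lc

open Set SimpleGraph Pool.Agent.H.MP_5af839_lc

structure St where
  τ : Pos → Sym2 ℕ → Bool
  n : ℕ
  ρ : ℕ → ℕ

structure Inv (p : Pos) (ρ : ℕ → ℕ) : Prop where
  fin : {v | ρ v ≠ 0}.Finite
  r0 : ρ 0 = 1
  inj : ∀ v w, ρ v ≠ 0 → ρ v = ρ w → v = w
  gr : ∀ a b, (s(a, b), true) ∈ p →
    ρ a ≠ 0 ∧ (ρ a < ρ b → ∀ c, ρ c ≠ 0 → ρ c < ρ b → ∃ β, (s(c, b), β) ∈ p)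
  par : ∀ a b, (Gp p).Reachable a b → ρ a < ρ b → ∃ c, ρ c < ρ b ∧ (s(c, b), true) ∈ p
  con : ∀ b, 1 < ρ b → ∃ c, ρ c ≠ 0 ∧ ρ c < ρ b ∧ (s(c, b), false) ∉ p

theorem Inv.act {p : Pos} {ρ : ℕ → ℕ} (h : Inv p ρ) {a b : ℕ} (r : (Gp p).Reachable a b) :
    a = b ∨ ρ b ≠ 0 :=
  reach_ind (Q := fun b => a = b ∨ ρ b ≠ 0) (.inl rfl)
    (fun w w' _ (e : (Gp p).Adj w w') =>
      .inr (h.gr w' w (Sym2.eq_swap ▸ (show (s(w, w'), true) ∈ p from e.1))).1) r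

theorem Inv.safe {p : Pos} {ρ : ℕ → ℕ} (h : Inv p ρ) : Safe p := by
  have : ∀ u v, u ≠ v → (Gp p).Reachable u v → ρ u < ρ v → ∃ b, (s(u, v), b) ∈ p :=
    fun u v ne r l => let ⟨c, c1, c2⟩ := h.par u v r l
      (h.gr c v c2).2 c1 u ((h.act r.symm).resolve_left ne.symm) l
  intro u v ne r
  rcases lt_or_gt_of_ne (mt (h.inj u v ((h.act r.symm).resolve_left ne.symm)) ne) with l | l
  exacts [this u v ne r l, Sym2.eq_swap ▸ this v u ne.symm r.symm l]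

def rule (ρ : ℕ → ℕ) (p : Pos) (e : Sym2 ℕ) : Prop := ∃ a b, e = s(a, b) ∧ ρ a ≠ 0 ∧ ρ a < ρ b ∧
  ∀ c, ρ c ≠ 0 → ρ c < ρ b → c ≠ a → ∃ β, (s(c, b), β) ∈ p

theorem Inv.step {p : Pos} {ρ : ℕ → ℕ} (h : Inv p ρ) {e : Sym2 ℕ} (he : ∀ β, (e, β) ∉ p)
    {β : Bool} (hβ : β = true ↔ rule ρ p e) : Inv ((e, β) :: p) ρ := by
  have g : ∀ a b, (s(a, b), true) ∈ p → ρ a ≠ 0 ∧
      (ρ a < ρ b → ∀ c, ρ c ≠ 0 → ρ c < ρ b → ∃ γ, (s(c, b), γ) ∈ (e, β) :: p) := fun a b m =>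
    (h.gr a b m).imp_right fun k l c c1 c2 => (k l c c1 c2).imp fun _ => .tail _
  cases β
  · have e1 : Gp ((e, false) :: p) = Gp p := by simp [Gp]
    refine ⟨h.fin, h.r0, h.inj, fun a b m => g a b (by simpa using m), fun a b r l =>
      (h.par a b (e1 ▸ r) l).imp fun c k => ⟨k.1, .tail _ k.2⟩, fun b l => ?_⟩
    obtain ⟨c, c1, c2, c3⟩ := h.con b l
    by_cases d : s(c, b) = e
    · have : ¬rule ρ p e := by simpa using hβ
      simp only [rule, not_exists, not_and, not_forall] at this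
      obtain ⟨c', a1, a2, a3, a4⟩ := this c b d.symm c1 c2
      exact ⟨c', a1, a2, by simpa [← d, a4 false, a3] using fun h _ => absurd (h ▸ a2) (lt_irrefl _)⟩
    · exact ⟨c, c1, c2, by simp [d, c3]⟩
  obtain ⟨x, y, rfl, a1, a2, a3⟩ := hβ.1 rfl
  have np : ∀ w, (Gp p).Reachable y w → w = y ∨ ρ y < ρ w := fun w r => by
    by_contra k
    push Not at k
    obtain ⟨c, c1, c2⟩ := h.par w y r.symm
      (k.2.lt_of_ne fun e => k.1 (h.inj _ _ (by omega) e.symm).symm)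
    obtain ⟨γ, m⟩ := (h.gr c y c2).2 c1 x a1 a2
    exact he γ m
  refine ⟨h.fin, h.r0, h.inj, fun a b m => ?_, fun a b r l => ?_, fun b l =>
    (h.con b l).imp fun c k => ⟨k.1, k.2.1, by simpa using k.2.2⟩⟩
  · rcases List.mem_cons.1 m with m | m
    · rcases Sym2.eq_iff.1 (Prod.mk.inj m).1 with ⟨rfl, rfl⟩ | ⟨rfl, rfl⟩
      · refine ⟨a1, fun _ c c1 c2 => ?_⟩
        rcases eq_or_ne c a with rfl | ne
        exacts [⟨_, .head _⟩, (a3 c c1 c2 ne).imp fun _ => .tail _]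
      · exact ⟨by omega, by omega⟩
    · exact g a b m
  · have k : ∀ a, (Gp p).Reachable a b → ρ a < ρ b →
        ∃ c, ρ c < ρ b ∧ (s(c, b), true) ∈ (s(x, y), true) :: p := fun a r l =>
      (h.par a b r l).imp fun c k => ⟨k.1, .tail _ k.2⟩
    rcases reach_edge (G := Gp p) (x := x) (y := y) (fun a b h => by
      simp only [Gp, fromEdgeSet_adj, mem_ofPred_eq, List.mem_cons, Prod.mk.injEq] at h ⊢
      exact h.1.symm.imp (⟨·, h.2⟩) (·.1)) r with r | r | r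
    · exact k a r l
    · rcases np b r.2 with rfl | m
      exacts [⟨x, a2, .head _⟩, k y r.2 m]
    · exact k x r.2 (by rcases np a r.1.symm with rfl | m <;> omega)

theorem Inv.new {p : Pos} {ρ : ℕ → ℕ} (h : Inv p ρ) {b c R : ℕ} (hb : ρ b = 0) (hc : ρ c ≠ 0)
    (hp : (s(c, b), false) ∉ p) (hR : ∀ v, ρ v ≤ R) : Inv p (Function.update ρ b (R + 1)) := by
  have u : ∀ v, ρ v ≠ 0 → Function.update ρ b (R + 1) v = ρ v := fun v hv =>
    Function.update_of_ne (fun e : v = b => hv (e ▸ hb)) _ _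
  have u2 : ∀ v, Function.update ρ b (R + 1) v = if v = b then R + 1 else ρ v := fun v =>
    Function.update_apply ..
  refine ⟨(h.fin.insert b).subset fun v hv => ?_, by rw [u 0 (by simp [h.r0]), h.r0],
    fun v w => ?_, fun x y m => ?_, fun x y r l => ?_, fun y l => ?_⟩
  · by_cases e : v = b
    exacts [.inl e, .inr (by simpa [u2, e] using hv)]
  · have := hR v
    have := hR w
    have := h.inj v w
    rw [u2, u2]
    split_ifs <;> omega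
  · have a1 := (h.gr x y m).1
    have a2 := (h.gr y x (Sym2.eq_swap ▸ m)).1
    rw [u x a1, u y a2]
    refine ⟨a1, fun l z => ?_⟩
    have := (h.gr x y m).2 l z
    have := hR y
    rw [u2]
    split_ifs
    exacts [by omega, by assumption]
  · have ne : x ≠ y := fun e => lt_irrefl _ (e ▸ l)
    have a1 := (h.act r).resolve_left ne
    rw [u x ((h.act r.symm).resolve_left ne.symm), u y a1] at l
    obtain ⟨z, z1, z2⟩ := h.par x y r l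
    exact ⟨z, by rwa [u z (h.gr z y z2).1, u y a1], z2⟩
  · rcases eq_or_ne y b with rfl | ne
    · exact ⟨c, by rwa [u c hc], by rw [u c hc, Function.update_self]; exact (hR c).trans_lt R.lt_succ_self, hp⟩
    · rw [Function.update_of_ne ne] at l ⊢
      obtain ⟨z, z1, z2⟩ := h.con y l
      exact ⟨z, by rwa [u z z1], by rwa [u z z1]⟩

variable (σ : Pos → Sym2 ℕ)

def ps (s : St) : Pos := play σ s.τ s.n

def Good (s : St) : Prop := Inv (ps σ s) s.ρ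

structure Le (s t : St) : Prop where
  n : s.n ≤ t.n
  τ : ∀ p e, p.length < s.n → t.τ p e = s.τ p e
  ρ : ∀ v, s.ρ v ≠ 0 → t.ρ v = s.ρ v
  nw : ∀ v w, s.ρ w = 0 → t.ρ w ≠ 0 → s.ρ v < t.ρ w

theorem Le.rfl (s : St) : Le s s := ⟨le_rfl, fun _ _ _ => Eq.refl _, fun _ _ => Eq.refl _, by omega⟩

theorem Le.trans {s t u : St} (h : Le s t) (k : Le t u) : Le s u := by
  refine ⟨h.n.trans k.n, fun p e l => (k.τ p e (l.trans_le h.n)).trans (h.τ p e l),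
    fun v a => by rw [k.ρ v (by rwa [h.ρ v a]), h.ρ v a], fun v w a b => ?_⟩
  have := h.ρ v
  have := h.nw v w a
  have := k.ρ w
  have := k.nw v w
  omega

variable {σ}

theorem Le.mem {s t : St} (h : Le s t) {z : Sym2 ℕ × Bool} (hz : z ∈ ps σ s) : z ∈ ps σ t :=
  play_mono h.n (play_congr (fun p l => ⟨Eq.refl _, fun e => h.τ p e l⟩) _ le_rfl ▸ hz)

def Fz (σ : Pos → Sym2 ℕ) (s : St) (e : Sym2 ℕ) : Prop :=
  ∀ t, Good σ t → Le s t → ∀ β, (e, β) ∉ ps σ t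

def adj (σ : Pos → Sym2 ℕ) (s : St) (v w : ℕ) : Prop :=
  v ≠ w ∧ ((s(v, w), true) ∈ ps σ s ∨ Fz σ s s(v, w))

theorem adj.mono {s t : St} (h : Le s t) {v w : ℕ} (a : adj σ s v w) : adj σ t v w :=
  ⟨a.1, a.2.imp h.mem fun f u g l => f u g (h.trans l)⟩

def Dom (K : SimpleGraph ℕ) : Prop := ∃ E : Set ℕ, E.Finite ∧ ∀ y ∉ E, ∃ a ∈ E, K.Adj a y

def GG (σ : Pos → Sym2 ℕ) (τ : Pos → Sym2 ℕ → Bool) : SimpleGraph ℕ := fromEdgeSet (Gr σ τ)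

def PP (σ : Pos → Sym2 ℕ) (τ : Pos → Sym2 ℕ → Bool) : SimpleGraph ℕ :=
  fromEdgeSet (Gr σ τ ∪ Wh σ τ)

def Bad (σ : Pos → Sym2 ℕ) (τ : Pos → Sym2 ℕ → Bool) : Prop :=
  ((Wh σ τ).Nonempty → ¬(GG σ τ).Connected) ∧ ¬Dom (GG σ τ)

def Win (σ : Pos → Sym2 ℕ) : Prop := ∃ τ, Bad σ τ ∧
  (Dom (PP σ τ) ∨ (PP σ τ).Connected ∧ ∃ v, {w | (PP σ τ).Adj v w}.Infinite)

theorem red {τ : Pos → Sym2 ℕ → Bool} {a y : ℕ} (ne : a ≠ y) (h : ¬(PP σ τ).Adj a y) :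
    ∃ n, (s(a, y), false) ∈ play σ τ n := by
  by_contra k
  refine h ⟨or_iff_not_imp_left.2 fun g => ⟨by simpa, fun n b m => ?_⟩, ne⟩
  cases b
  exacts [k ⟨n, m⟩, g ⟨n, m⟩]

theorem fresh (p : Pos) {E : Set ℕ} (h : E.Finite) : ∃ x ∉ E, ∀ y β, (s(y, x), β) ∉ p := by
  obtain ⟨M, hM⟩ := ((List.finite_toSet (p.map Prod.fst)).image rk).bddAbove
  obtain ⟨x, h1, h2⟩ := (infinite_univ.sdiff h).exists_gt M
  refine ⟨x, h1.2, fun y β m => ?_⟩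
  have := hM ⟨_, List.mem_map.2 ⟨_, m, rfl⟩, rfl⟩
  simp only [rk, Sym2.lift_mk] at this
  omega

theorem Good.bd {s : St} (h : Good σ s) : ∃ R, ∀ v, s.ρ v ≤ R :=
  let ⟨R, hR⟩ := (h.fin.image s.ρ).bddAbove
  ⟨R, fun v => (eq_or_ne (s.ρ v) 0).elim (fun e => e ▸ R.zero_le) fun e => hR ⟨v, e, rfl⟩⟩

theorem Good.new {s : St} (h : Good σ s) {b c R : ℕ} (hb : s.ρ b = 0) (hc : s.ρ c ≠ 0)
    (hp : (s(c, b), false) ∉ ps σ s) (hR : ∀ v, s.ρ v ≤ R) :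
    Good σ ⟨s.τ, s.n, Function.update s.ρ b (R + 1)⟩ ∧
      Le s ⟨s.τ, s.n, Function.update s.ρ b (R + 1)⟩ := by
  refine ⟨Inv.new h hb hc hp hR, le_rfl, fun _ _ _ => rfl,
    fun v hv => Function.update_of_ne (fun e : v = b => hv (e ▸ hb)) _ _, fun v w a => ?_⟩
  have := hR v
  simp only [Function.update_apply]
  split_ifs <;> omega

variable (hσ : Legal σ) (nw : ¬Win σ)
include hσ nw

theorem free {s : St} (h : Good σ s) {E : Set ℕ} (hE : E.Finite) : ∃ t, Good σ t ∧ Le s t ∧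
    s.n < t.n ∧ t.ρ = s.ρ ∧ ∃ y ∉ E, s.ρ y = 0 ∧
      ∀ a, a ∈ E ∨ s.ρ a ≠ 0 → (s(a, y), false) ∈ ps σ t := by
  classical
  let τ : Pos → Sym2 ℕ → Bool := fun p e =>
    if p.length < s.n then s.τ p e else decide (rule s.ρ p e)
  have g : ∀ m, s.n ≤ m → Inv (play σ τ m) s.ρ := fun m hm => by
    induction m, hm using Nat.le_induction with
    | base =>
      rw [show play σ τ s.n = ps σ s from play_congr (fun p hp => ⟨rfl, fun e => if_pos hp⟩) _ le_rfl]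
      exact h
    | succ m hm ih => exact ih.step (hσ _).2 (by simp [τ, len, hm.not_gt])
  have ga : ∀ a y, (GG σ τ).Adj a y → s.ρ y ≠ 0 := fun a y ⟨⟨m, k⟩, _⟩ =>
    ((g _ (le_max_right m _)).gr y a (Sym2.eq_swap ▸ play_mono (le_max_left _ _) k)).1
  have b1 : Bad σ τ := ⟨fun _ c => ?_, fun ⟨E, e1, e2⟩ => ?_⟩
  rotate_left
  · obtain ⟨y, hy⟩ := h.fin.exists_notMem
    exact hy (reach_ind (Q := fun y => s.ρ y ≠ 0) (by simp [h.r0]) (fun _ _ _ => ga _ _) (c 0 y))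
  · obtain ⟨y, hy⟩ := (e1.union h.fin).exists_notMem
    obtain ⟨a, -, k⟩ := e2 y fun k => hy (.inl k)
    exact hy (.inr (ga _ _ k))
  have := mt (fun k => nw ⟨τ, b1, .inl ⟨_, hE.union h.fin, k⟩⟩) id
  push Not at this
  obtain ⟨y, y1, y2⟩ := this
  choose! m hm using fun a (ha : a ∈ E ∪ {v | s.ρ v ≠ 0}) =>
    red (fun e : a = y => y1 (e ▸ ha)) (y2 a ha)
  obtain ⟨M, hM⟩ := ((hE.union h.fin).image m).bddAbove
  exact ⟨⟨τ, M + s.n + 1, s.ρ⟩, g _ (by simp only; omega), ⟨by simp only; omega,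
    fun p e hp => if_pos hp, fun _ _ => rfl, by simp only; omega⟩, by simp only; omega, rfl, y,
    fun k => y1 (.inl k), by_contra fun k => y1 (.inr k), fun a ha =>
      play_mono (show m a ≤ M + s.n + 1 from (hM ⟨a, ha, rfl⟩).trans (by omega)) (hm a ha)⟩

theorem star {s : St} (h : Good σ s) {R : ℕ} (hR : ∀ v, s.ρ v ≤ R) (k : ℕ) : ∃ t, Good σ t ∧
    Le s t ∧ ∃ x, t.ρ x = R + 1 ∧ ∃ Y : Finset ℕ, Y.card = k ∧ ∀ y ∈ Y, 1 < t.ρ y ∧
      ∀ a, t.ρ a ≠ 0 → t.ρ a < t.ρ y → a ≠ x → (s(a, y), false) ∈ ps σ t := by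
  have h1 : ∃ t, Good σ t ∧ Le s t ∧ t.ρ = s.ρ ∧ ∃ Y : Finset ℕ, Y.card = k ∧ ∀ y ∈ Y, s.ρ y = 0 ∧
      ∀ a, a ∈ Y ∨ s.ρ a ≠ 0 → a ≠ y → (s(a, y), false) ∈ ps σ t := by
    induction k with
    | zero => exact ⟨s, h, .rfl s, rfl, ∅, rfl, by simp⟩
    | succ k ih =>
      obtain ⟨t, a1, a2, a3, Y, a4, a5⟩ := ih
      obtain ⟨u, b1, b2, -, b3, y, b4, b5, b6⟩ := free hσ nw a1 Y.finite_toSet
      rw [a3] at b3 b5 b6
      refine ⟨u, b1, a2.trans b2, b3, insert y Y, by rw [Finset.card_insert_of_notMem b4, a4],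
        fun z hz => ?_⟩
      replace hz := Finset.mem_insert.1 hz
      rcases hz with rfl | hz
      · exact ⟨b5, fun a ha ne => b6 a (ha.imp_left fun k => (Finset.mem_insert.1 k).resolve_left ne)⟩
      · refine ⟨(a5 z hz).1, fun a ha ne => ?_⟩
        rcases eq_or_ne a y with rfl | e
        · exact Sym2.eq_swap ▸ b6 z (.inl hz)
        · exact b2.mem ((a5 z hz).2 a (ha.imp_left fun k => (Finset.mem_insert.1 k).resolve_left e) ne)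
  obtain ⟨t, a1, a2, a3, Y, a4, a5⟩ := h1
  obtain ⟨x, x1, x2⟩ := fresh (ps σ t) (Y.finite_toSet.union h.fin)
  have x3 : t.ρ x = 0 := by rw [a3]; exact by_contra fun k => x1 (.inr k)
  have h2 : ∀ Z ⊆ Y, ∃ u, Good σ u ∧ Le t u ∧ ps σ u = ps σ t ∧ u.ρ x = R + 1 ∧
      ∀ a, u.ρ a ≠ 0 ↔ a = x ∨ a ∈ Z ∨ s.ρ a ≠ 0 := by
    intro Z
    induction Z using Finset.induction_on with
    | empty =>
      obtain ⟨b1, b2⟩ := a1.new x3 (c := 0) (by simp [a1.r0]) (x2 0 _) (a3 ▸ hR)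
      refine fun _ => ⟨_, b1, b2, rfl, by simp, fun a => ?_⟩
      simp only [Function.update_apply, a3]
      split_ifs with e <;> simp [e]
    | insert y Z hy ih =>
      intro hZ
      obtain ⟨u, b1, b2, b3, b4, b5⟩ := ih ((Finset.subset_insert _ _).trans hZ)
      obtain ⟨R', hR'⟩ := b1.bd
      have yY := hZ (Finset.mem_insert_self _ _)
      have ne : y ≠ x := fun e => x1 (.inl (e ▸ yY))
      obtain ⟨c1, c2⟩ := b1.new (b := y) (c := x) (by_contra fun k => by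
        simpa [ne, hy, (a5 y yY).1] using (b5 y).1 k) (by omega) (b3 ▸ Sym2.eq_swap ▸ x2 y _) hR'
      refine ⟨_, c1, b2.trans c2, b3, (c2.ρ x (by omega)).trans b4, fun a => ?_⟩
      simp only [Function.update_apply, Finset.mem_insert]
      split_ifs with e <;> simp [e, b5]
  obtain ⟨u, b1, b2, b3, b4, b5⟩ := h2 Y subset_rfl
  refine ⟨u, b1, a2.trans b2, x, b4, Y, a4, fun y hy => ⟨?_, fun a k l ne =>
    b3 ▸ (a5 y hy).2 a (((b5 a).1 k).resolve_left ne) fun e => lt_irrefl _ (e ▸ l)⟩⟩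
  exact a1.r0 ▸ b2.nw 0 y (a3 ▸ (a5 y hy).1) ((b5 y).2 (.inr (.inl hy)))

def Gen (σ : Pos → Sym2 ℕ) (en : ℕ → Sym2 ℕ) (k : ℕ) (s t : St) : Prop :=
  Le s t ∧ s.n < t.n ∧ t.ρ k ≠ 0 ∧ ((∃ β, (en k, β) ∈ ps σ t) ∨ Fz σ t (en k)) ∧
    ∃ y, s.ρ y = 0 ∧ ∀ a, s.ρ a ≠ 0 → (s(a, y), false) ∈ ps σ t

theorem gen (en : ℕ → Sym2 ℕ) (k : ℕ) {s u : St} (l : Le s u) (h : Good σ u) :
    ∃ t, Good σ t ∧ Le u t ∧ Gen σ en k s t := by
  obtain ⟨t, a1, a2, a3, a4, y, -, a5, a6⟩ := free hσ nw h finite_empty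
  obtain ⟨t', b1, b2, b3⟩ : ∃ t', Good σ t' ∧ Le t t' ∧ t'.ρ k ≠ 0 := by
    by_cases e : t.ρ k = 0
    · obtain ⟨x, x1, x2⟩ := fresh (ps σ t) (a1.fin.insert k)
      obtain ⟨R, hR⟩ := a1.bd
      obtain ⟨c1, c2⟩ := a1.new (b := x) (c := 0) (by_contra fun k => x1 (.inr k))
        (by simp [a1.r0]) (x2 0 _) hR
      obtain ⟨R', hR'⟩ := c1.bd
      obtain ⟨d1, d2⟩ := c1.new (b := k) (c := x) ((Function.update_of_ne
        (fun e => x1 (.inl e.symm)) _ _).trans e) (by simp) (Sym2.eq_swap ▸ x2 k _) hR'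
      exact ⟨_, d1, c2.trans d2, by simp⟩
    · exact ⟨t, a1, .rfl t, e⟩
  obtain ⟨t'', c1, c2, c3⟩ : ∃ t'', Good σ t'' ∧ Le t' t'' ∧
      ((∃ β, (en k, β) ∈ ps σ t'') ∨ Fz σ t'' (en k)) := by
    by_cases f : Fz σ t' (en k)
    · exact ⟨t', b1, .rfl _, .inr f⟩
    · simp only [Fz, not_forall, not_not] at f
      obtain ⟨t'', d1, d2, d3⟩ := f
      exact ⟨t'', d1, d2, .inl d3⟩
  refine ⟨t'', c1, a2.trans (b2.trans c2), l.trans (a2.trans (b2.trans c2)),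
    (l.n.trans_lt a3).trans_le (b2.trans c2).n, by rwa [c2.ρ k b3], c3, y,
    by_contra fun k => k ((l.ρ y k).symm.trans a5),
    fun a ha => (b2.trans c2).mem (a6 a (.inr (by rwa [l.ρ a ha])))⟩

end Pool.Agent.H.MP_3d6d95_lc
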