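import Pool.Agent.H.MP_3d6d95_lc.D

set_option autoImplicit false

namespace Pool.Agent.H.MP_3d6d95_lc

open Set SimpleGraph Pool.Agent.H.MP_5af839_lc

def Bl (r : ℕ → ℕ → Prop) : ℕ → Set ℕ
  | 0 => {0}
  | n + 1 => Bl r n ∪ {w | ∃ v ∈ Bl r n, r v w}

theorem Bl.mono {r r' : ℕ → ℕ → Prop} (h : ∀ v w, r v w → r' v w) : ∀ n, Bl r n ⊆ Bl r' n
  | 0 => subset_rfl
  | n + 1 => union_subset_union (Bl.mono h n) fun _ ⟨v, a, b⟩ => ⟨v, Bl.mono h n a, h _ _ b⟩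

theorem Bl.up (r : ℕ → ℕ → Prop) : Monotone (Bl r) :=
  monotone_nat_of_le_succ fun _ => subset_union_left

theorem Bl.reach {K : SimpleGraph ℕ} : ∀ n, ∀ v ∈ Bl K.Adj n, K.Reachable 0 v
  | 0, _, h => h ▸ .rfl
  | n + 1, v, h => h.elim (Bl.reach n v) fun ⟨w, a, b⟩ => (Bl.reach n w a).trans b.reachable

variable {σ : Pos → Sym2 ℕ}

theorem nored (hσ : Legal σ) {τ : Pos → Sym2 ℕ → Bool} {a y : ℕ} (h : (PP σ τ).Adj a y) (n : ℕ) :
    (s(a, y), false) ∉ play σ τ n := fun m => by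
  rcases h.1 with ⟨n', h⟩ | h
  · obtain ⟨k, -, a1, a2⟩ := mem_play.1 m
    obtain ⟨k', -, b1, b2⟩ := mem_play.1 h
    obtain rfl : k = k' := inj hσ (a1.symm.trans b1)
    exact absurd (a2.trans b2.symm) (by simp)
  · exact h.2 _ _ m

theorem gg_le (τ : Pos → Sym2 ℕ → Bool) : GG σ τ ≤ PP σ τ := fromEdgeSet_mono subset_union_left

theorem gg_reach {τ : Pos → Sym2 ℕ → Bool} {u v : ℕ} (h : (GG σ τ).Reachable u v) :
    ∃ n, (Gp (play σ τ n)).Reachable u v :=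
  reach_ind (Q := fun v => ∃ n, (Gp (play σ τ n)).Reachable u v) ⟨0, .rfl⟩
    (fun w w' ⟨n, r⟩ (a : (GG σ τ).Adj w w') => let ⟨m, k⟩ := a.1
      ⟨max n m, (r.mono (fromEdgeSet_mono fun _ => play_mono (le_max_left _ _))).trans
        (Adj.reachable ⟨play_mono (le_max_right _ _) k, a.2⟩)⟩) h

def padj (σ : Pos → Sym2 ℕ) (t : St) (v w : ℕ) : Prop := ∃ u, Good σ u ∧ Le t u ∧ adj σ u v w

theorem padj.anti {s t : St} (l : Le s t) (v w : ℕ) : padj σ t v w → padj σ s v w :=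
  fun ⟨u, a, b, c⟩ => ⟨u, a, l.trans b, c⟩

theorem lim (hσ : Legal σ) {en : ℕ → Sym2 ℕ} (hen : Function.Surjective en) (s : ℕ → St)
    (hg : ∀ k, Good σ (s k)) (hs : ∀ k, Gen σ en k (s k) (s (k + 1))) :
    ∃ τ, Bad σ τ ∧ (PP σ τ).Connected ∧ (∀ k v w, adj σ (s k) v w → (PP σ τ).Adj v w) ∧
      (∀ k v w, (PP σ τ).Adj v w → padj σ (s k) v w) ∧ ∀ k t, Good σ t → Le t (s k) →
        (∀ y, 1 < t.ρ y → ∃ c, t.ρ c ≠ 0 ∧ t.ρ c < t.ρ y ∧ (PP σ τ).Adj c y ∧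
          (s(c, y), false) ∉ ps σ t) ∧
        ∀ r v, t.ρ v ≠ 0 → t.ρ v ≤ r → v ∈ Bl (PP σ τ).Adj r := by
  have le : ∀ j k, j ≤ k → Le (s j) (s k) := fun j k h => by
    induction k, h using Nat.le_induction with
    | base => exact .rfl _
    | succ k h ih => exact ih.trans (hs k).1
  have m1 : StrictMono fun k => (s k).n := strictMono_nat_of_lt_succ fun k => (hs k).2.1
  let τ : Pos → Sym2 ℕ → Bool := fun p e => (s (p.length + 1)).τ p e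
  have pl : ∀ k, play σ τ (s k).n = ps σ (s k) := fun k =>
    play_congr (fun p hp => ⟨rfl, fun e => by
      rcases le_total k (p.length + 1) with l | l
      exacts [(le _ _ l).τ p e hp, ((le _ _ l).τ p e (m1.le_apply (x := p.length + 1))).symm]⟩)
      _ le_rfl
  have mem : ∀ n z, z ∈ play σ τ n → ∀ k, n ≤ k → z ∈ ps σ (s k) := fun n z h k l =>
    pl k ▸ play_mono (l.trans m1.le_apply) h
  have L0 : ∀ k t, Good σ t → Le t (s k) → ∀ y, 1 < t.ρ y → ∃ c, t.ρ c ≠ 0 ∧ t.ρ c < t.ρ y ∧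
      (PP σ τ).Adj c y := fun k t g l y hy => by
    by_contra h
    push Not at h
    choose! m hm using fun c (hc : c ∈ {c | t.ρ c ≠ 0 ∧ t.ρ c < t.ρ y}) =>
      red (fun e : c = y => lt_irrefl _ (e ▸ hc.2)) (h c hc.1 hc.2)
    obtain ⟨M, hM⟩ := ((g.fin.subset fun c (hc : c ∈ {c | t.ρ c ≠ 0 ∧ t.ρ c < t.ρ y}) =>
      hc.1).image m).bddAbove
    have l' := l.trans (le k (M + k) (by omega))
    obtain ⟨c, c1, c2, c3⟩ := (hg (M + k)).con y (by rw [l'.ρ y (by omega)]; exact hy)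
    have hc : t.ρ c ≠ 0 ∧ t.ρ c < t.ρ y := by
      have := l'.ρ y
      have := l'.ρ c
      have := l'.nw y c
      omega
    exact c3 (mem _ _ (hm c hc) _ ((hM ⟨c, hc, rfl⟩).trans (by omega)))
  have L2 : ∀ k t, Good σ t → Le t (s k) → ∀ r v, t.ρ v ≠ 0 → t.ρ v ≤ r →
      v ∈ Bl (PP σ τ).Adj r := fun k t g l r => by
    induction r with
    | zero => omega
    | succ r ih =>
      intro v a b
      by_cases h : 1 < t.ρ v
      · obtain ⟨c, c1, c2, c3⟩ := L0 k t g l v h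
        exact .inr ⟨c, ih c c1 (by omega), c3⟩
      · exact Bl.up _ (Nat.zero_le _) (g.inj v 0 a (by rw [g.r0]; omega))
  refine ⟨τ, ⟨fun ⟨e, he⟩ c => ?_, fun ⟨E, e1, e2⟩ => ?_⟩, ?_, fun k v w ⟨ne, h⟩ => ⟨?_, ne⟩,
    fun j v w ⟨h, ne⟩ => ?_, fun k t g l => ⟨fun y hy => (L0 k t g l y hy).imp fun c h =>
      ⟨h.1, h.2.1, h.2.2, fun m => nored hσ h.2.2 _ (pl k ▸ l.mem m)⟩, L2 k t g l⟩⟩
  · obtain ⟨u, v⟩ := e
    obtain ⟨n, r⟩ := gg_reach (c u v)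
    obtain ⟨b, hb⟩ := (hg n).safe u v (by simpa using he.1)
      (r.mono (fromEdgeSet_mono fun _ h => mem _ _ h _ le_rfl))
    exact he.2 _ b (pl n ▸ hb)
  · obtain ⟨k, hk⟩ := e1.bddAbove
    obtain ⟨-, -, -, -, y, y1, y2⟩ := hs (k + 1)
    have a1 : ∀ a ∈ E, (s (k + 1)).ρ a ≠ 0 := fun a ha => by
      rw [(le (a + 1) (k + 1) (by simpa using hk ha)).ρ a (hs a).2.2.1]
      exact (hs a).2.2.1
    obtain ⟨a, b1, b2⟩ := e2 y fun h => a1 y h y1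
    exact nored hσ (gg_le τ b2) _ (pl _ ▸ y2 a (a1 a b1))
  · have : ∀ v, (PP σ τ).Reachable 0 v := fun v =>
      Bl.reach _ v (L2 _ _ (hg (v + 1)) (.rfl _) _ v (hs v).2.2.1 le_rfl)
    exact ⟨fun u v => (this u).symm.trans (this v)⟩
  · exact h.imp (fun h => ⟨_, pl k ▸ h⟩) fun h => ⟨by simpa, fun n b m => h (s (max n k)) (hg _)
      (le _ _ (le_max_right _ _)) b (mem n _ m _ (le_max_left _ _))⟩
  · suffices ∃ k, adj σ (s k) v w from let ⟨k, h⟩ := this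
      ⟨s (max k j), hg _, le _ _ (le_max_right _ _), h.mono (le _ _ (le_max_left _ _))⟩
    rcases h with ⟨n, h⟩ | h
    · exact ⟨n, ne, .inl (mem n _ h n le_rfl)⟩
    · obtain ⟨k, e⟩ := hen s(v, w)
      exact ⟨k + 1, ne, .inr (e ▸ (hs k).2.2.2.1.resolve_left fun ⟨β, m⟩ =>
        h.2 _ β (pl _ ▸ e ▸ m))⟩

variable (hσ : Legal σ) (nw : ¬Win σ)
include hσ nw

theorem frz1 {s : St} (h : Good σ s) (v : ℕ) :
    ∃ t, Good σ t ∧ Le s t ∧ {w | padj σ t v w}.Finite := by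
  by_contra k
  simp only [not_exists, not_and] at k
  obtain ⟨en, hen⟩ := exists_surjective_nat (Sym2 ℕ)
  have step : ∀ n (x : {t // Good σ t ∧ Le s t}), ∃ y : {t // Good σ t ∧ Le s t},
      Gen σ en n x.1 y.1 ∧ ∃ w, n < w ∧ adj σ y.1 v w := by
    rintro n ⟨t, a1, a2⟩
    obtain ⟨w, ⟨u, b1, b2, b3⟩, l⟩ := Set.Infinite.exists_gt (k t a1 a2) n
    obtain ⟨t', c1, c2, c3⟩ := gen hσ nw en n b2 b1
    exact ⟨⟨t', c1, a2.trans c3.1⟩, c3, w, l, b3.mono c2⟩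
  choose st h1 h2 using step
  let x : ℕ → {t // Good σ t ∧ Le s t} := fun n => Nat.rec ⟨s, h, .rfl s⟩ st n
  obtain ⟨τ, a1, a2, a3, -⟩ := lim hσ hen (fun n => (x n).1) (fun n => (x n).2.1)
    fun n => h1 n (x n)
  refine nw ⟨τ, a1, .inr ⟨a2, v, infinite_of_forall_exists_gt fun n => ?_⟩⟩
  obtain ⟨w, l, b⟩ := h2 n (x n)
  exact ⟨w, a3 (n + 1) v w b, l⟩

theorem frz (r : ℕ) {s : St} (h : Good σ s) :
    ∃ t, Good σ t ∧ Le s t ∧ (Bl (padj σ t) r).Finite := by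
  induction r with
  | zero => exact ⟨s, h, .rfl s, finite_singleton 0⟩
  | succ r ih =>
    obtain ⟨t, a1, a2, a3⟩ := ih
    have : ∀ V : Set ℕ, V.Finite → ∃ u, Good σ u ∧ Le t u ∧
        ∀ v ∈ V, {w | padj σ u v w}.Finite := fun V hV => by
      induction V, hV using Set.Finite.induction_on with
      | empty => exact ⟨t, a1, .rfl t, by simp⟩
      | @insert a _ _ _ ih =>
        obtain ⟨u, b1, b2, b3⟩ := ih
        obtain ⟨u', c1, c2, c3⟩ := frz1 hσ nw b1 a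
        exact ⟨u', c1, b2.trans c2, forall_mem_insert.2
          ⟨c3, fun v hv => (b3 v hv).subset (padj.anti c2 v)⟩⟩
    obtain ⟨u, b1, b2, b3⟩ := this _ a3
    refine ⟨u, b1, a2.trans b2, (a3.union (a3.biUnion b3)).subset ?_⟩
    rintro w (h | ⟨v, h1, h2⟩)
    exacts [.inl (Bl.mono (padj.anti b2) r h),
      .inr (mem_iUnion₂.2 ⟨v, Bl.mono (padj.anti b2) r h1, h2⟩)]

theorem lvl (en : ℕ → Sym2 ℕ) (n : ℕ)
    (F : {F : Set ℕ → St // (range F).Finite ∧ ∀ a, Good σ (F a)}) :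
    ∃ F' : {F : Set ℕ → St // (range F).Finite ∧ ∀ a, Good σ (F a)},
      ∃ R M, ∀ a, Gen σ en n (F.1 a) (F'.1 a) ∧
        (n ∉ a → Bl (padj σ (F'.1 a)) (n + R + 2) ⊆ Iio M) ∧
        (n ∈ a → ∃ t, Good σ t ∧ Le t (F'.1 a) ∧ ∃ x, t.ρ x = R + 1 ∧ ∃ Y : Finset ℕ,
          Y.card = M + n + 1 ∧ ∀ y ∈ Y, 1 < t.ρ y ∧
            ∀ c, t.ρ c ≠ 0 → t.ρ c < t.ρ y → c ≠ x → (s(c, y), false) ∈ ps σ t) := by
  classical
  obtain ⟨F, h1, h2⟩ := F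
  have : Nonempty St := ⟨F ∅⟩
  choose! bd hbd using fun s (h : Good σ s) => h.bd
  obtain ⟨R, hR⟩ := (h1.image bd).bddAbove
  choose! fr f1 f2 f3 using fun s (h : Good σ s) => show ∃ t, Good σ t ∧ Gen σ en n s t ∧
      (Bl (padj σ t) (n + R + 2)).Finite from
    let ⟨_, a1, a2, a3⟩ := frz hσ nw (n + R + 2) h
    let ⟨t, b1, b2, b3⟩ := gen hσ nw en n a2 a1
    ⟨t, b1, b3, a3.subset (Bl.mono (padj.anti b2) _)⟩
  obtain ⟨M, hM⟩ := (h1.biUnion (t := fun s => Bl (padj σ (fr s)) (n + R + 2))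
    (by rintro _ ⟨a, rfl⟩; exact f3 _ (h2 a))).bddAbove
  choose! st g1 g2 g3 using fun s (h : s ∈ range F) => show ∃ u, Good σ u ∧ Gen σ en n s u ∧
      ∃ t, Good σ t ∧ Le t u ∧ ∃ x, t.ρ x = R + 1 ∧ ∃ Y : Finset ℕ,
        Y.card = M + 1 + n + 1 ∧ ∀ y ∈ Y, 1 < t.ρ y ∧
          ∀ c, t.ρ c ≠ 0 → t.ρ c < t.ρ y → c ≠ x → (s(c, y), false) ∈ ps σ t by
    obtain ⟨a, rfl⟩ := h
    obtain ⟨t, a1, a2, a3⟩ := star hσ nw (h2 a)
      (fun v => (hbd _ (h2 a) v).trans (hR ⟨_, ⟨a, rfl⟩, rfl⟩)) (M + 1 + n + 1)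
    obtain ⟨u, b1, b2, b3⟩ := gen hσ nw en n a2 a1
    exact ⟨u, b1, b3, t, a1, b2, a3⟩
  refine ⟨⟨fun a => if n ∈ a then st (F a) else fr (F a), ((h1.image st).union
    (h1.image fr)).subset ?_, fun a => ?_⟩, R, M + 1, fun a => ?_⟩
  · rintro _ ⟨a, rfl⟩
    simp only
    split_ifs
    exacts [.inl ⟨_, ⟨a, rfl⟩, rfl⟩, .inr ⟨_, ⟨a, rfl⟩, rfl⟩]
  · simp only
    split_ifs
    exacts [g1 _ ⟨a, rfl⟩, f1 _ (h2 a)]
  · simp only
    split_ifs with h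
    · exact ⟨g2 _ ⟨a, rfl⟩, fun k => absurd h k, fun _ => g3 _ ⟨a, rfl⟩⟩
    · exact ⟨f2 _ (h2 a), fun _ w hw => Nat.lt_succ_of_le (hM (mem_iUnion₂.2 ⟨_, ⟨a, rfl⟩, hw⟩)),
        fun k => absurd k h⟩

theorem fam : ∃ (τ : Set ℕ → Pos → Sym2 ℕ → Bool) (R M : ℕ → ℕ), ∀ a, Bad σ (τ a) ∧
    (PP σ (τ a)).Connected ∧ ∀ n, (n ∉ a → Bl (PP σ (τ a)).Adj (n + R n + 2) ⊆ Iio (M n)) ∧
      (n ∈ a → ∃ x ∈ Bl (PP σ (τ a)).Adj (R n + 1), ∃ Y : Finset ℕ, Y.card = M n + n + 1 ∧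
        ∀ y ∈ Y, (PP σ (τ a)).Adj x y) := by
  obtain ⟨en, hen⟩ := exists_surjective_nat (Sym2 ℕ)
  choose st R M h using lvl hσ nw en
  have g0 : Good σ ⟨fun _ _ => false, 0, fun v => if v = 0 then 1 else 0⟩ := by
    refine ⟨(finite_singleton 0).subset fun v => by simp, rfl, fun v w => ?_,
      by simp [ps, play], fun a b r => ?_, fun b => ?_⟩
    · simp only
      split_ifs <;> simp [*]
    · obtain rfl : a = b := by simpa [ps, play, Gp] using r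
      simp
    · simp only
      split_ifs <;> omega
  let x : ℕ → {F : Set ℕ → St // (range F).Finite ∧ ∀ a, Good σ (F a)} := fun n =>
    Nat.rec ⟨fun _ => _, finite_range_const, fun _ => g0⟩ st n
  choose τ a1 a2 a3 a4 a5 using fun a => lim hσ hen (fun n => (x n).1 a) (fun n => (x n).2.2 a)
    fun n => (h n (x n) a).1
  refine ⟨τ, fun n => R n (x n), fun n => M n (x n), fun a => ⟨a1 a, a2 a, fun n =>
    ⟨fun k => (Bl.mono (a4 a (n + 1)) _).trans ((h n (x n) a).2.1 k), fun k => ?_⟩⟩⟩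
  obtain ⟨t, b1, b2, z, b3, Y, b4, b5⟩ := (h n (x n) a).2.2 k
  obtain ⟨c1, c2⟩ := a5 a (n + 1) t b1 b2
  refine ⟨z, c2 _ z (by omega) b3.le, Y, b4, fun y hy => ?_⟩
  obtain ⟨c, d1, d2, d3, d4⟩ := c1 y (b5 y hy).1
  exact (by_contra fun e => d4 ((b5 y hy).2 c d1 d2 e) : c = z) ▸ d3

end Pool.Agent.H.MP_3d6d95_lc
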