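import Pool.Agent.H.MP_3d6d95_lc.E
import Pool.Agent.H.MP_5af839_lc.C

set_option autoImplicit false

namespace Pool.Agent.H.MP_3d6d95_lc

open Set SimpleGraph Cardinal Pool.Agent.H.MP_5af839_lc

def Emb (P K : SimpleGraph ℕ) : Prop :=
  ∃ φ : ℕ ≃ ℕ, {p : ℕ × ℕ | P.Adj p.1 p.2 ∧ ¬K.Adj (φ p.1) (φ p.2)}.Finite

def SS (F : Set (SimpleGraph ℕ)) : Set (SimpleGraph ℕ) :=
  {K | Dom K ∨ K.Connected ∧ ((∃ v, {w | K.Adj v w}.Infinite) ∨ ∃ P ∈ F, Emb P K)}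

theorem Emb.trans {P K L : SimpleGraph ℕ} : Emb P K → Emb K L → Emb P L := fun ⟨φ, h1⟩ ⟨ψ, h2⟩ =>
  ⟨φ.trans ψ, (h1.union (h2.preimage (φ.prodCongr φ).injective.injOn)).subset fun p hp => by
    by_cases h : K.Adj (φ p.1) (φ p.2)
    exacts [.inr ⟨h, hp.2⟩, .inl ⟨hp.1, h⟩]⟩

theorem clo {F : Set (SimpleGraph ℕ)} {K K' : SimpleGraph ℕ} (φ : ℕ ≃ ℕ)
    (h1 : {p : ℕ × ℕ | K.Adj p.1 p.2 ∧ ¬K'.Adj (φ p.1) (φ p.2)}.Finite)
    (h2 : ∀ x y, K.Reachable x y → K'.Reachable (φ x) (φ y)) (h : K ∈ SS F) : K' ∈ SS F := by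
  have k : ∀ a y, K.Adj a y → y ∉ Prod.snd '' {p : ℕ × ℕ | K.Adj p.1 p.2 ∧
      ¬K'.Adj (φ p.1) (φ p.2)} → K'.Adj (φ a) (φ y) := fun a y b c =>
    by_contra fun d => c ⟨(a, y), ⟨b, d⟩, rfl⟩
  rcases h with ⟨E, e1, e2⟩ | ⟨c, h⟩
  · refine .inl ⟨_, (e1.union (h1.image Prod.snd)).image φ, fun y hy => ?_⟩
    obtain ⟨y, rfl⟩ := φ.surjective y
    obtain ⟨a, a1, a2⟩ := e2 y fun h => hy ⟨y, .inl h, rfl⟩
    exact ⟨φ a, ⟨a, .inl a1, rfl⟩, k a y a2 fun h => hy ⟨y, .inr h, rfl⟩⟩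
  refine .inr ⟨⟨fun x y => ?_⟩, h.imp (fun ⟨v, h⟩ => ⟨φ v, ((h.sdiff (h1.image Prod.snd)).image
    φ.injective.injOn).mono ?_⟩) fun ⟨P, a, b⟩ => ⟨P, a, b.trans ⟨φ, h1⟩⟩⟩
  · simpa using h2 _ _ (c (φ.symm x) (φ.symm y))
  · rintro _ ⟨w, h, rfl⟩
    exact k v w h.1 h.2

theorem ss_mono {F : Set (SimpleGraph ℕ)} {K K' : SimpleGraph ℕ} (l : K ≤ K') :
    K ∈ SS F → K' ∈ SS F :=
  clo (.refl ℕ) (finite_empty.subset fun _ h => h.2 (l h.1)) fun _ _ h => h.mono l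

theorem app_emb {P K : SimpleGraph ℕ} : App P K → Emb P K := fun ⟨φ, h⟩ =>
  ⟨φ, h.subset fun _ a b => a.2 (b.1 a.1)⟩

theorem emb_app {P G : SimpleGraph ℕ} (hP : P.Connected) (hG : G.IsAcyclic) :
    Emb P G → App P G := fun ⟨φ, h⟩ => by
  have ac := isAcyclic_iff_forall_adj_isBridge.1 (hG.of_comap φ.toEmbedding)
  have e := (h.image Prod.snd).insert 0
  choose c c1 c2 using fun v => reach_ind (Q := fun v => ∃ c ∈ insert 0 (Prod.snd ''
    {p : ℕ × ℕ | P.Adj p.1 p.2 ∧ ¬G.Adj (φ p.1) (φ p.2)}), (P ⊓ G.comap φ).Reachable c v)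
    ⟨0, .inl rfl, .rfl⟩ (fun w w' ⟨c, c1, c2⟩ a => by
      by_cases k : G.Adj (φ w) (φ w')
      exacts [⟨c, c1, c2.trans (Adj.reachable ⟨a, k⟩)⟩, ⟨w', .inr ⟨(w, w'), ⟨a, k⟩, rfl⟩, .rfl⟩])
    (hP 0 v)
  have : {p : ℕ × ℕ | G.Adj (φ p.1) (φ p.2) ∧ ¬P.Adj p.1 p.2}.Finite := by
    refine .of_finite_image (f := fun p => (c p.1, c p.2)) ((e.prod e).subset ?_) ?_
    · rintro _ ⟨p, -, rfl⟩
      exact ⟨c1 _, c1 _⟩
    rintro ⟨a, b⟩ ⟨h1, h2⟩ ⟨a', b'⟩ ⟨h3, -⟩ k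
    obtain ⟨k1, k2⟩ := Prod.mk.inj k
    have l : P ⊓ G.comap φ ≤ (G.comap φ.toEmbedding).deleteEdges {s(a, b)} := fun x y m =>
      deleteEdges_adj.2 ⟨m.2, fun q => h2 ((mem_edgeSet P).1 (mem_singleton_iff.1 q ▸ m.1))⟩
    have r1 := ((c2 a).symm.trans (k1 ▸ c2 a')).mono l
    have r2 := ((c2 b').symm.trans (k2 ▸ c2 b)).mono l
    by_contra ne
    refine ac h1 (r1.trans (.trans ?_ r2))
    by_cases q : s(a', b') = s(a, b)
    · rcases Sym2.eq_iff.1 q with ⟨rfl, rfl⟩ | ⟨rfl, rfl⟩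
      exacts [absurd rfl ne, r1.symm]
    · exact Adj.reachable (deleteEdges_adj.2 ⟨h3, q⟩)
  refine ⟨φ, (h.union this).subset fun p hp => ?_⟩
  by_cases k : P.Adj p.1 p.2
  exacts [.inl ⟨k, fun a => hp (iff_of_true k a)⟩,
    .inr ⟨by_contra fun a => hp (iff_of_false k a), k⟩]

open Classical in
def DD (A : Set ℕ) : Set ℕ :=
  range fun n => Encodable.encode (n, (Finset.range n).filter (· ∈ A))

theorem DD_inf (A : Set ℕ) : (DD A).Infinite :=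
  infinite_range_of_injective fun _ _ h => congrArg Prod.fst (Encodable.encode_injective h)

theorem DD_ad {A B : Set ℕ} (h : (DD A ∩ DD B).Infinite) : A = B := by
  classical
  ext i
  obtain ⟨_, ⟨⟨n, rfl⟩, m, e⟩, k⟩ := (h.sdiff ((finite_Iic i).image fun n =>
    Encodable.encode (n, (Finset.range n).filter (· ∈ A)))).nonempty
  obtain ⟨rfl, e⟩ := Prod.mk.inj (Encodable.encode_injective e)
  have : i < m := not_le.1 fun l => k ⟨m, l, rfl⟩
  simpa [this] using (Finset.ext_iff.1 e i).symm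

theorem avoid' (G : Set ℕ → SimpleGraph ℕ) (h : ∀ A B, App (G A) (G B) → A = B)
    (D : Set (SimpleGraph ℕ)) (hD : #D < 𝔠) : ∃ A, ∀ K ∈ D, ¬App (G A) K := by
  by_contra k
  push Not at k
  choose K h1 h2 using k
  refine hD.not_ge (mk_set_nat ▸ mk_le_of_injective (f := fun A => (⟨K A, h1 A⟩ : D))
    fun A B e => h A B ((h2 A).trans ?_))
  exact (show K B = K A from (congrArg Subtype.val e).symm) ▸ (h2 B).symm

theorem fam' {σ : Pos → Sym2 ℕ} (hσ : Legal σ) (nw : ¬Win σ) :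
    ∃ τ : Set ℕ → Pos → Sym2 ℕ → Bool, (∀ A, Bad σ (τ A) ∧ (PP σ (τ A)).Connected) ∧
      ∀ A B, App (PP σ (τ A)) (PP σ (τ B)) → A = B := by
  obtain ⟨τ, R, M, h⟩ := fam hσ nw
  refine ⟨fun A => τ (DD A), fun A => ⟨(h _).1, (h _).2.1⟩, fun A B k => ?_⟩
  obtain ⟨φ, k⟩ := app_emb k
  have bl : ∀ v, ∃ r, v ∈ Bl (PP σ (τ (DD B))).Adj r := fun v =>
    reach_ind (Q := fun v => ∃ r, v ∈ Bl (PP σ (τ (DD B))).Adj r) ⟨0, rfl⟩
      (fun w _ ⟨r, a⟩ b => ⟨r + 1, .inr ⟨w, a, b⟩⟩) ((h _).2.1 0 v)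
  choose f hf using bl
  obtain ⟨L, hL⟩ := (((k.image Prod.snd).insert 0).image fun v => f (φ v) + φ v + 1).bddAbove
  have k1 : ∀ a y, (PP σ (τ (DD A))).Adj a y → (PP σ (τ (DD B))).Adj (φ a) (φ y) ∨
      f (φ y) + φ y + 1 ≤ L := fun a y b => or_iff_not_imp_left.2 fun c =>
    hL ⟨y, .inr ⟨(a, y), ⟨b, c⟩, rfl⟩, rfl⟩
  have k2 : ∀ r, ∀ v ∈ Bl (PP σ (τ (DD A))).Adj r, φ v ∈ Bl (PP σ (τ (DD B))).Adj (L + r) := by
    intro r
    induction r with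
    | zero =>
      rintro _ rfl
      have : f (φ 0) + φ 0 + 1 ≤ L := hL ⟨0, .inl rfl, rfl⟩
      exact Bl.up _ (by omega) (hf _)
    | succ r ih =>
      rintro v (a | ⟨w, a, b⟩)
      · exact .inl (ih v a)
      · exact (k1 w v b).elim (fun c => .inr ⟨_, ih w a, c⟩) fun c => Bl.up _ (by omega) (hf _)
  refine DD_ad (((DD_inf A).sdiff (finite_Iio L)).mono fun n hn => ⟨hn.1, by_contra fun nb => ?_⟩)
  have l : L ≤ n := not_lt.1 hn.2
  obtain ⟨x, a1, Y, a2, a3⟩ := ((h _).2.2 n).2 hn.1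
  have := Finset.card_le_card_of_injOn (s := Y) (t := Finset.range (M n + n)) φ (fun y hy => by
    have := (k1 x y (a3 y hy)).imp_left fun c => ((h _).2.2 n).1 nb
      (.inr ⟨_, Bl.up _ (by omega) (k2 _ x a1), c⟩)
    simp only [mem_Iio, Finset.coe_range] at this ⊢
    omega) φ.injective.injOn
  simp only [Finset.card_range] at this
  omega

def Uns (A : Set ℕ) (H : SimpleGraph ℕ) (y : ℕ) : Prop :=
  ¬({z | H.Adj y z}.ncard ∈ A ∧ y ≤ {z | H.Adj y z}.ncard)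

def Rt (A : Set ℕ) (H : SimpleGraph ℕ) (y : ℕ) : Prop :=
  (Uns A H y ∧ ∀ z, H.Reachable y z → Uns A H z → y ≤ z) ∨
    ∀ z, H.Reachable y z → ¬Uns A H z ∧ z ≤ y

theorem rt_ex (A : Set ℕ) (G : SimpleGraph ℕ) {x y : ℕ} (h : y < x) :
    ∃ r < x, Rt A (Gle G x) r ∧ (Gle G x).Reachable y r := by
  have l : ∀ r, (Gle G x).Reachable y r → r < x := fun r a => by have := gle_lt a; omega
  by_cases k : ∃ z, (Gle G x).Reachable y z ∧ Uns A (Gle G x) z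
  · obtain ⟨r, a, b⟩ := wellFounded_lt.has_min _ k
    exact ⟨r, l r a.1, .inl ⟨a.2, fun z c d => not_lt.1 (b z ⟨a.1.trans c, d⟩)⟩, a.1⟩
  · obtain ⟨r, a, b⟩ := exists_max_image {z | (Gle G x).Reachable y z} id
      ((finite_Iio x).subset l) ⟨y, .rfl⟩
    exact ⟨r, l r a, .inr fun z c => ⟨fun d => k ⟨z, a.trans c, d⟩, b z (a.trans c)⟩, a⟩

theorem deg {A : Set ℕ} (hA : A.Infinite) {G : SimpleGraph ℕ}
    (hE : ∀ x y, y < x → G.Adj x y → Rt A (Gle G x) y) :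
    (∀ y, {z | G.Adj y z}.Finite) ∧ ∀ y, Uns A G y → Fin' G y := by
  classical
  have h1 : ∀ y, {z | G.Adj y z}.Finite := fun y => by_contra fun h => by
    obtain ⟨a, a1, a2⟩ := hA.exists_gt (y + 1)
    have m : StrictMono (Nat.nth (G.Adj y)) := Nat.nth_strictMono h
    have b1 : a - 1 ≤ Nat.nth (G.Adj y) (a - 1) := m.le_apply
    have b2 := m (show a - 1 < a by omega)
    have b3 : ∀ n, G.Adj y (Nat.nth (G.Adj y) n) := Nat.nth_mem_of_infinite h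
    rcases hE _ y (by omega) (b3 a).symm with k | k
    · have : {z | (Gle G (Nat.nth (G.Adj y) a)).Adj y z} =
          ((Finset.range (Nat.nth (G.Adj y) a)).filter (G.Adj y) : Finset ℕ) := by
        ext z
        simp only [gle_adj, mem_ofPred_eq, Finset.coe_filter, Finset.mem_range]
        exact ⟨fun h => ⟨h.2.2, h.1⟩, fun h => ⟨h.2, by omega, h.1⟩⟩
      refine k.1 ?_
      rw [this, ncard_coe_finset, ← Nat.count_eq_card_filter_range, Nat.count_nth_of_infinite h]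
      exact ⟨a1, by omega⟩
    · have := (k _ (gle_adj.2 ⟨b3 (a - 1), by omega, b2⟩).reachable).2
      omega
  refine ⟨h1, fun y hy => ?_⟩
  obtain ⟨b, hb⟩ := (((finite_Iic y).biUnion fun z _ => h1 z).insert y).bddAbove
  have b1 : y ≤ b := hb (.inl rfl)
  have b2 : ∀ z ≤ y, ∀ w, G.Adj z w → w ≤ b := fun z l w a => hb (.inr (mem_iUnion₂.2 ⟨z, l, a⟩))
  have : ∀ x, b + 1 ≤ x → ∀ w, (Gle G x).Reachable y w → (Gle G (b + 1)).Reachable y w := by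
    intro x hx
    induction x, hx using Nat.le_induction with
    | base => exact fun _ => id
    | succ x hx ih =>
      refine fun w r => (gle_step (by omega) r).elim (ih w) fun ⟨z, a1, a2, a3⟩ => ?_
      have u : Uns A (Gle G x) y := by
        have : {z | (Gle G x).Adj y z} = {z | G.Adj y z} := Set.ext fun z => gle_adj.trans
          (and_iff_left_of_imp fun a => by have := b2 y le_rfl z a; omega)
        rwa [Uns, this]
      rcases hE x z a1 a2 with k | k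
      · have := b2 z (k.2 y a3.symm u) x a2.symm
        omega
      · exact absurd u (k y a3.symm).1
  refine ((finite_Iio (b + 1)).insert y).subset fun w hw => ?_
  obtain ⟨x, hx⟩ := gle_ex hw
  exact (gle_lt (this (x + (b + 1)) (by omega) w (gle_mono (by omega) hx))).imp Eq.symm id

theorem uns_sep {A B : Set ℕ} {G K : SimpleGraph ℕ} (hG : {y | Uns A G y}.Finite)
    (hK : {y | Uns B K y}.Finite) (h : App G K) : (A ∩ B).Infinite := by
  obtain ⟨φ, h⟩ := h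
  refine infinite_of_forall_exists_gt fun n => ?_
  obtain ⟨y, ⟨-, a⟩, l⟩ := (infinite_univ.sdiff ((hG.union (hK.preimage (f := φ)
    φ.injective.injOn)).union (h.image Prod.fst))).exists_gt n
  have e : {z | K.Adj (φ y) z}.ncard = {z | G.Adj y z}.ncard := by
    rw [← ncard_preimage_of_injective_subset_range φ.injective (by simp)]
    exact congrArg _ (Set.ext fun z => by_contra fun k =>
      a (.inr ⟨(y, z), fun q => k q.symm, rfl⟩))
  have a1 := not_not.1 fun k => a (.inl (.inl k))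
  exact ⟨_, ⟨a1.1, e ▸ (not_not.1 fun k => a (.inl (.inr k))).1⟩, l.trans_le a1.2⟩

end Pool.Agent.H.MP_3d6d95_lc
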